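import Mathlib
import Pool.Agent.H84.PowDefs
import Pool.Agent.H84.WDEx

set_option autoImplicit false

namespace Pool.Agent.Results.MP_360cb4_gt.Counter

open Pool.Agent.H84.PowDefs

/-- `A` is a `K`-determined subset of `X`. -/
def KDetSet (K : (Y : Type) → [TopologicalSpace Y] → Prop) {X : Type} [TopologicalSpace X]
    (A : Set X) : Prop :=
  ∀ (Y : Type) [TopologicalSpace Y], K Y → ∀ f : X → Y, Continuous f →
    ∃! y : Y, closure (f '' A) = closure {y}

/-- `X` is a `K`-determined space. -/
def KDetSpace (K : (Y : Type) → [TopologicalSpace Y] → Prop) (X : Type) [TopologicalSpace X] :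
    Prop :=
  ∀ A : Set X, (IsClosed A ∧ IsIrreducible A) ↔ (IsClosed A ∧ KDetSet K A)

/-- There are an adequate Smyth category `K` and a `K`-determined T0 space whose Smyth power space
is not `K`-determined. -/
theorem result :
    ∃ K : (Y : Type) → [TopologicalSpace Y] → Prop,
      (∀ (Y : Type) [TopologicalSpace Y], K Y → T0Space Y) ∧
      (∀ (Y : Type) [TopologicalSpace Y], T0Space Y → QuasiSober Y → K Y) ∧
      (∀ (X : Type) [TopologicalSpace X], T0Space X →
        @K {A : Set X // IsClosed A ∧ KDetSet K A}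
          (TopologicalSpace.generateFrom
            {S | ∃ U : Set X, IsOpen U ∧ S = {A | (A.1 ∩ U).Nonempty}})) ∧
      (∀ (X : Type) [TopologicalSpace X], K X → K (Smyth X)) ∧
      ∃ (X : Type) (_ : TopologicalSpace X), T0Space X ∧ KDetSpace K X ∧
        ¬ KDetSpace K (Smyth X) :=
  ⟨H84.WFDefs.WF, fun _ _ h => h.1, fun _ _ _ _ => H84.WF.wf_of_sober,
    fun W _ _ => H84.WDEx.wf_WD W, fun _ _ h => H84.WF.wf_smyth h,
    H84.WDEx.X, inferInstance, inferInstance, H84.WDEx.wd_iff, fun h =>
      H84.WDEx.not_wd_A0 ((h _).1 ⟨isOpen_compl_iff.1 H84.WDEx.isOpen_compl_A0,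
        H84.WDEx.irreducible_A0⟩).2⟩

end Pool.Agent.Results.MP_360cb4_gt.Counter
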